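import Mathlib

namespace Pool.Agent.Results.MP_af8c33_pr.Order

open Matrix Finset

/-- Data of an MMPP: irreducible generator `Q`, rates `lam`, stationary row vector `pi`. -/
structure IsMMPP {p : ℕ} (Q : Matrix (Fin p) (Fin p) ℝ) (lam pi : Fin p → ℝ) : Prop where
  offdiag : ∀ i j, i ≠ j → 0 ≤ Q i j
  rows : ∀ i, ∑ j, Q i j = 0
  irred : ∀ i j, Relation.ReflTransGen (fun a b => a ≠ b ∧ 0 < Q a b) i j
  lam_nonneg : ∀ i, 0 ≤ lam i
  lam_ne : ∃ i, lam i ≠ 0
  pi_nonneg : ∀ i, 0 ≤ pi i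
  pi_sum : ∑ i, pi i = 1
  pi_stat : pi ᵥ* Q = 0

/-- The event-stationary initial law `pi D / (pi D 1)`. -/
noncomputable def alpha {p : ℕ} (lam pi : Fin p → ℝ) : Fin p → ℝ :=
  ((pi ᵥ* diagonal lam) ⬝ᵥ 1)⁻¹ • (pi ᵥ* diagonal lam)

/-- The survival function `eta exp(C t) 1` with `C = Q - D`. -/
noncomputable def surv {p : ℕ} (Q : Matrix (Fin p) (Fin p) ℝ) (lam eta : Fin p → ℝ) (t : ℝ) : ℝ :=
  eta ⬝ᵥ (NormedSpace.exp (t • (Q - diagonal lam)) *ᵥ 1)

def QQ : Matrix (Fin 16) (Fin 16) ℝ :=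
  fun i j => (if j = i + 1 then 13 else 0) - (if j = i then 13 else 0)

def ll : Fin 16 → ℝ := fun i => if i.val < 8 then 3 else 0

noncomputable def pp : Fin 16 → ℝ := fun _ => 1 / 16

def CC : Matrix (Fin 16) (Fin 16) ℝ := QQ - diagonal ll

lemma CC_mulVec (v : Fin 16 → ℝ) (i : Fin 16) :
    (CC *ᵥ v) i = 13 * v (i + 1) - (if i.val < 8 then 16 else 13) * v i := by
  have h1 : (QQ *ᵥ v) i = 13 * v (i + 1) - 13 * v i := by
    simp [QQ, mulVec, dotProduct, sub_mul, Finset.sum_sub_distrib, ite_mul]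
  rw [CC, sub_mulVec, Pi.sub_apply, h1, mulVec_diagonal]
  unfold ll
  split_ifs <;> ring

def st (l : List ℤ) : List ℤ :=
  (List.range 16).map fun i =>
    13 * l.getD ((i + 1) % 16) 0 - (if i < 8 then 16 else 13) * l.getD i 0

def sg (l : List ℤ) : ℤ :=
  ((List.range 16).map fun i => (if i < 8 then -1 else 1) * l.getD i 0).sum

def run : ℕ → List ℤ × ℤ
  | 0 => (List.replicate 16 1, 0)
  | k + 1 => (st (run k).1, ((k : ℤ) + 1) * (run k).2 + sg (st (run k).1))

lemma check : (run 90).2 * 91 + 32 * 29 ^ 91 < 0 := by decide +kernel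

noncomputable def w (k : ℕ) : Fin 16 → ℝ := (CC ^ k) *ᵥ 1

lemma w_succ (k : ℕ) (i : Fin 16) :
    w (k + 1) i = 13 * w k (i + 1) - (if i.val < 8 then 16 else 13) * w k i := by
  unfold w
  rw [pow_succ', ← mulVec_mulVec, CC_mulVec]

lemma w_run (k : ℕ) : ∀ i : Fin 16, w k i = (((run k).1.getD i.val 0 : ℤ) : ℝ) := by
  induction k with
  | zero =>
    intro i
    have : (run 0).1.getD i.val 0 = 1 := by
      revert i
      decide
    rw [this]
    simp [w]
  | succ k ih =>
    intro i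
    rw [w_succ, ih, ih]
    have hi := i.isLt
    have h1 : (run (k + 1)).1.getD i.val 0 =
        13 * (run k).1.getD ((i.val + 1) % 16) 0
          - (if i.val < 8 then 16 else 13) * (run k).1.getD i.val 0 := by
      show (st (run k).1).getD i.val 0 = _
      unfold st
      rw [List.getD_eq_getElem _ _ (by simpa using hi)]
      simp only [List.getElem_map, List.getElem_range]
    have h2 : ((i + 1 : Fin 16)).val = (i.val + 1) % 16 := by
      rw [Fin.val_add]
      rfl
    rw [h1, h2]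
    push_cast
    split_ifs <;> rfl

lemma w_bound (k : ℕ) : ∀ i, |w k i| ≤ 29 ^ k := by
  induction k with
  | zero => intro i; simp [w]
  | succ k ih =>
    intro i
    rw [w_succ, pow_succ]
    have h1 := abs_le.mp (ih (i + 1))
    have h2 := abs_le.mp (ih i)
    have h3 : (0:ℝ) ≤ 29 ^ k := by positivity
    rw [abs_le]
    split_ifs <;> constructor <;> linarith [h1.1, h1.2, h2.1, h2.2]

noncomputable def sgn : Fin 16 → ℝ := fun i => if i.val < 8 then -1 else 1

noncomputable def s (k : ℕ) : ℝ := sgn ⬝ᵥ w k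

lemma s_run (k : ℕ) : s k = (sg (run k).1 : ℝ) := by
  unfold s sg dotProduct
  simp only [w_run]
  generalize (run k).1 = l
  simp [Fin.sum_univ_succ, sgn, List.range_succ]

lemma s_bound (k : ℕ) : s k ≤ 16 * 29 ^ k := by
  unfold s dotProduct
  calc ∑ i, sgn i * w k i ≤ ∑ _i : Fin 16, (29:ℝ) ^ k := by
        apply Finset.sum_le_sum
        intro i _
        have h := abs_le.mp (w_bound k i)
        unfold sgn
        split_ifs <;> linarith [h.1, h.2]
    _ = 16 * 29 ^ k := by simp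

lemma part (k : ℕ) : ((run k).2 : ℝ) =
    (k.factorial : ℝ) * ∑ j ∈ range (k + 1), ((j.factorial : ℝ))⁻¹ * s j := by
  induction k with
  | zero =>
    have : s 0 = 0 := by
      rw [s_run]
      have : sg (run 0).1 = 0 := by decide
      rw [this]; simp
    simp [run, this]
  | succ k ih =>
    have h : (run (k + 1)).2 = ((k : ℤ) + 1) * (run k).2 + sg (run (k + 1)).1 := rfl
    rw [h, Finset.sum_range_succ _ (k + 1), s_run (k + 1)]
    push_cast
    rw [ih, Nat.factorial_succ]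
    have : (k.factorial : ℝ) ≠ 0 := by positivity
    push_cast
    field_simp

lemma tail (j : ℕ) : (((j + 91).factorial : ℝ))⁻¹ * 29 ^ (j + 91) ≤
    ((Nat.factorial 91 : ℝ))⁻¹ * 29 ^ 91 * (1 / 2) ^ j := by
  induction j with
  | zero => simp
  | succ j ih =>
    have e : j + 1 + 91 = (j + 91) + 1 := by ring
    rw [e, Nat.factorial_succ, pow_succ, pow_succ]
    have h1 : (0:ℝ) ≤ (((j + 91).factorial : ℝ))⁻¹ * 29 ^ (j + 91) := by positivity
    have h2 : (((j + 91 + 1 : ℕ) : ℝ))⁻¹ * 29 ≤ 1 / 2 := by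
      rw [inv_mul_le_iff₀ (by positivity)]
      push_cast
      have : (0:ℝ) ≤ j := by positivity
      linarith
    calc ((((j + 91 + 1) * (j + 91).factorial : ℕ) : ℝ))⁻¹ * (29 ^ (j + 91) * 29)
        = ((((j + 91).factorial : ℝ))⁻¹ * 29 ^ (j + 91)) * ((((j + 91 + 1 : ℕ) : ℝ))⁻¹ * 29) := by
          rw [Nat.cast_mul, mul_inv]; ring
      _ ≤ (((Nat.factorial 91 : ℝ))⁻¹ * 29 ^ 91 * (1 / 2) ^ j) * (1 / 2) :=
          mul_le_mul ih h2 (by positivity) (by positivity)
      _ = _ := by ring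

noncomputable def L : Matrix (Fin 16) (Fin 16) ℝ →ₗ[ℝ] ℝ where
  toFun A := sgn ⬝ᵥ (A *ᵥ 1)
  map_add' A B := by rw [add_mulVec, dotProduct_add]
  map_smul' c A := by rw [smul_mulVec, dotProduct_smul]; rfl

lemma hs : HasSum (fun k : ℕ => ((k.factorial : ℝ))⁻¹ * s k) (L (NormedSpace.exp CC)) := by
  have h1 : HasSum (fun n : ℕ => ((n.factorial : ℝ))⁻¹ • CC ^ n) (NormedSpace.exp CC) := by
    let _i1 := Matrix.linftyOpNormedRing (n := Fin 16) (α := ℝ)
    let _i2 := Matrix.linftyOpNormedAlgebra (n := Fin 16) (R := ℝ) (α := ℝ)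
    exact NormedSpace.exp_series_hasSum_exp' (𝕂 := ℝ) CC
  have h2 := h1.map L L.continuous_of_finiteDimensional
  have e : (fun k : ℕ => ((k.factorial : ℝ))⁻¹ * s k) =
      L ∘ fun n : ℕ => ((n.factorial : ℝ))⁻¹ • CC ^ n := by
    funext k
    simp only [Function.comp, map_smul, smul_eq_mul]
    rfl
  rw [e]
  exact h2

lemma neg : L (NormedSpace.exp CC) < 0 := by
  have h1 := (hasSum_nat_add_iff' 91).mpr hs
  have h2 : HasSum (fun j : ℕ => 16 * (((Nat.factorial 91 : ℝ))⁻¹ * 29 ^ 91 * (1 / 2) ^ j))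
      (16 * (((Nat.factorial 91 : ℝ))⁻¹ * 29 ^ 91 * 2)) :=
    (hasSum_geometric_two.mul_left _).mul_left _
  have h3 := hasSum_le (fun j => by
    have a := s_bound (j + 91)
    have b := tail j
    have c : (0:ℝ) ≤ (((j + 91).factorial : ℝ))⁻¹ := by positivity
    calc (((j + 91).factorial : ℝ))⁻¹ * s (j + 91)
        ≤ (((j + 91).factorial : ℝ))⁻¹ * (16 * 29 ^ (j + 91)) := mul_le_mul_of_nonneg_left a c
      _ = 16 * ((((j + 91).factorial : ℝ))⁻¹ * 29 ^ (j + 91)) := by ring
      _ ≤ _ := by linarith) h1 h2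
  have h4 := part 90
  have h5 : ((run 90).2 : ℝ) * 91 + 32 * 29 ^ 91 < 0 := by exact_mod_cast check
  have h6 : (Nat.factorial 91 : ℝ) = 91 * (Nat.factorial 90 : ℝ) := by
    rw [Nat.factorial_succ 90]; push_cast; ring
  have h7 : (0:ℝ) < (Nat.factorial 90 : ℝ) := by positivity
  generalize (Nat.factorial 90 : ℝ) = F at *
  generalize (∑ j ∈ range (90 + 1), ((j.factorial : ℝ))⁻¹ * s j) = P at *
  generalize ((29:ℝ) ^ 91) = X at *
  rw [h4] at h5
  rw [h6] at h3
  have h8 : P + 16 * ((91 * F)⁻¹ * X * 2) = (F * P * 91 + 32 * X) / (91 * F) := by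
    field_simp
    ring
  have h9 : (F * P * 91 + 32 * X) / (91 * F) < 0 := div_neg_of_neg_of_pos h5 (by positivity)
  linarith

lemma irr (i j : Fin 16) : Relation.ReflTransGen (fun a b => a ≠ b ∧ 0 < QQ a b) i j := by
  have step : ∀ a : Fin 16, a ≠ a + 1 ∧ 0 < QQ a (a + 1) := by
    intro a
    have h : a + 1 ≠ a := by revert a; decide
    refine ⟨h.symm, ?_⟩
    simp [QQ, h]
  have key : ∀ n : ℕ, Relation.ReflTransGen (fun a b => a ≠ b ∧ 0 < QQ a b) i
      (i + (Fin.ofNat 16 n)) := by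
    intro n
    induction n with
    | zero => 
      have : i + Fin.ofNat 16 0 = i := by revert i; decide
      rw [this]
    | succ n ih =>
      have : i + Fin.ofNat 16 (n + 1) = i + Fin.ofNat 16 n + 1 := by
        apply Fin.ext
        simp only [Fin.val_add, Fin.ofNat, Fin.val_one]
        omega
      rw [this]
      exact ih.tail (step _)
  have := key (j - i).val
  have e : ∀ i j : Fin 16, i + Fin.ofNat 16 (j - i).val = j := by decide
  rwa [e] at this

theorem result : ∃ (p : ℕ) (Q : Matrix (Fin p) (Fin p) ℝ) (lam pi : Fin p → ℝ) (t : ℝ),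
    IsMMPP Q lam pi ∧ 0 ≤ t ∧ surv Q lam pi t < surv Q lam (alpha lam pi) t := by
  refine ⟨16, QQ, ll, pp, 1, ⟨?_, ?_, irr, ?_, ⟨0, by simp [ll]⟩, ?_, ?_, ?_⟩, zero_le_one, ?_⟩
  · intro i j h
    unfold QQ
    rw [if_neg h.symm]
    split_ifs <;> norm_num
  · intro i
    simp [QQ, Finset.sum_sub_distrib]
  · intro i
    unfold ll
    split_ifs <;> norm_num
  · intro i
    unfold pp
    norm_num
  · simp [pp]
  · funext j
    have h : ∀ i : Fin 16, (j = i + 1) = (i = j - 1) := by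
      intro i
      apply propext
      revert i j
      decide
    simp [pp, QQ, vecMul, dotProduct, mul_sub, Finset.sum_sub_distrib, h]
  · have ha : pp - alpha ll pp = (1 / 16 : ℝ) • sgn := by
      have h1 : (pp ᵥ* diagonal ll) ⬝ᵥ 1 = 3 / 2 := by
        simp [dotProduct, vecMul_diagonal, pp, ll, Fin.sum_univ_succ]
        norm_num
      funext i
      unfold alpha
      rw [h1]
      simp only [Pi.sub_apply, Pi.smul_apply, vecMul_diagonal, pp, ll, sgn, smul_eq_mul]
      split_ifs <;> norm_num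
    have hn := neg
    have : surv QQ ll pp 1 - surv QQ ll (alpha ll pp) 1 = (1 / 16) * L (NormedSpace.exp CC) := by
      unfold surv
      rw [← sub_dotProduct, ha, one_smul, smul_dotProduct]
      rfl
    linarith

end Pool.Agent.Results.MP_af8c33_pr.Order
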